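import Pool.Agent.R34.DP.Stm

/-!
# DP-ROT: invariance under the rotation by 45 degrees
-/

open MeasureTheory ProbabilityTheory Set Filter
open scoped NNReal ENNReal Topology

namespace R34.DP

namespace Rot

theorem gam_eq (n : ℕ) : gam n = (stdGaussian (EuclideanSpace ℝ (Fin n))).map
    (EuclideanSpace.equiv (Fin n) ℝ) := by
  rw [← map_pi_eq_stdGaussian, Measure.map_map]
  · have : ((EuclideanSpace.equiv (Fin n) ℝ) ∘ (WithLp.toLp 2 : (Fin n → ℝ) → _)) = id := by
      funext x
      rfl
    rw [this, Measure.map_id]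
    rfl
  · exact (EuclideanSpace.equiv (Fin n) ℝ).continuous.measurable
  · fun_prop

instance gaussian_gam (n : ℕ) : IsGaussian (gam n) := by
  rw [gam_eq]
  infer_instance

theorem gam_centered (n : ℕ) (L : StrongDual ℝ (Fin n → ℝ)) : ∫ x, L x ∂(gam n) = 0 := by
  rw [gam_eq, integral_map]
  · exact integral_strongDual_stdGaussian
      (L.comp (EuclideanSpace.equiv (Fin n) ℝ).toContinuousLinearMap)
  · exact (EuclideanSpace.equiv (Fin n) ℝ).continuous.aemeasurable
  · exact L.continuous.aestronglyMeasurable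

theorem rot_gam (n : ℕ) : RotInv (gam n) := by
  have h := IsGaussian.map_rotation_eq_self_of_forall_strongDual_eq_zero
    (μ := gam n) (gam_centered n) (-(Real.pi / 4))
  unfold RotInv
  have e : (fun p : (Fin n → ℝ) × (Fin n → ℝ) =>
      ((1 / Real.sqrt 2) • (p.1 + p.2), (1 / Real.sqrt 2) • (p.1 - p.2))) =
      Prod.swap ∘ (ContinuousLinearMap.rotation (E := Fin n → ℝ) (-(Real.pi / 4))) := by
    funext p
    simp only [Function.comp_apply, ContinuousLinearMap.rotation_apply, Prod.swap_prod_mk,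
      Real.cos_neg, Real.sin_neg, Real.cos_pi_div_four, Real.sin_pi_div_four, neg_neg]
    have e1 : 1 / Real.sqrt 2 = Real.sqrt 2 / 2 := by
      rw [div_eq_div_iff (by positivity) (by norm_num), one_mul,
        Real.mul_self_sqrt (by norm_num)]
    rw [e1]
    refine Prod.ext ?_ ?_
    · simp only [smul_add]
    · simp only [neg_smul, sub_eq_add_neg, smul_add, smul_neg]
  rw [e, ← Measure.map_map measurable_swap (ContinuousLinearMap.continuous _).measurable, h,
    Measure.prod_swap]

/-- the exchange of the two inner coordinates -/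
def rho {X : Type} (p : (X × X) × (X × X)) : (X × X) × (X × X) :=
  ((p.1.1, p.2.1), (p.1.2, p.2.2))

theorem mp_rho {X : Type} [MeasurableSpace X] (μ : Measure X) [IsProbabilityMeasure μ] :
    MeasurePreserving (rho : (X × X) × (X × X) → _) ((μ.prod μ).prod (μ.prod μ))
      ((μ.prod μ).prod (μ.prod μ)) := by
  have h1 : MeasurePreserving (MeasurableEquiv.prodAssoc : (X × X) × (X × X) ≃ᵐ _)
      ((μ.prod μ).prod (μ.prod μ)) (μ.prod (μ.prod (μ.prod μ))) := measurePreserving_prodAssoc _ _ _
  have h2 : MeasurePreserving (MeasurableEquiv.prodAssoc : (X × X) × X ≃ᵐ _)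
      ((μ.prod μ).prod μ) (μ.prod (μ.prod μ)) := measurePreserving_prodAssoc _ _ _
  have h3 := h2.symm MeasurableEquiv.prodAssoc
  have h4 : MeasurePreserving (Prod.swap : X × X → X × X) (μ.prod μ) (μ.prod μ) :=
    Measure.measurePreserving_swap
  have h5 := h4.prod (MeasurePreserving.id μ)
  have h6 := (h2.comp h5).comp h3
  have h7 := (MeasurePreserving.id μ).prod h6
  have h8 := h1.symm MeasurableEquiv.prodAssoc
  exact (h8.comp h7).comp h1

theorem rot_prod {X : Type} [NormedAddCommGroup X] [NormedSpace ℝ X] [MeasurableSpace X]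
    [BorelSpace X] [SecondCountableTopology X] (μ : Measure X) [IsProbabilityMeasure μ]
    (h : RotInv μ) : RotInv (μ.prod μ) := by
  have hm : Measurable (fun p : X × X =>
      ((1 / Real.sqrt 2) • (p.1 + p.2), (1 / Real.sqrt 2) • (p.1 - p.2))) := by fun_prop
  have h1 : MeasurePreserving (fun p : X × X =>
      ((1 / Real.sqrt 2) • (p.1 + p.2), (1 / Real.sqrt 2) • (p.1 - p.2)))
      (μ.prod μ) (μ.prod μ) := ⟨hm, h⟩
  have h2 := ((mp_rho μ).comp (h1.prod h1)).comp (mp_rho μ)
  exact h2.map_eq

end Rot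

theorem t_ROT : S_ROT := ⟨Rot.rot_gam, fun _ _ _ _ _ _ μ _ h => Rot.rot_prod μ h⟩

end R34.DP
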